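import Mathlib
import Pool.Agent.Helper472.Lat_Chars

/-!
Characters of compact abelian groups: orthogonality, Parseval, peaking trigonometric polynomials.
-/

set_option autoImplicit false
set_option linter.unusedSectionVars false

open MeasureTheory Filter Topology Set
open scoped ComplexConjugate

namespace Pool.Agent.Q184.Bridge

universe u

variable {K : Type u} [CommGroup K] [TopologicalSpace K] [IsTopologicalGroup K]
  [CompactSpace K] [T2Space K]

theorem char_cont (χ : K →ₜ* Circle) : Continuous fun x : K => ((χ x : Circle) : ℂ) :=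
  continuous_subtype_val.comp χ.continuous_toFun

theorem char_one_coe (x : K) : (((1 : K →ₜ* Circle) x : Circle) : ℂ) = 1 := rfl

theorem char_mul_coe (χ ψ : K →ₜ* Circle) (x : K) :
    (((χ * ψ) x : Circle) : ℂ) = ((χ x : Circle) : ℂ) * ((ψ x : Circle) : ℂ) := rfl

theorem char_prod_coe {ι : Type*} (P : Finset ι) (z : ι → K →ₜ* Circle) (x : K) :
    (((∏ i ∈ P, z i) x : Circle) : ℂ) = ∏ i ∈ P, ((z i x : Circle) : ℂ) := by
  classical
  induction P using Finset.induction_on with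
  | empty => simp only [Finset.prod_empty]; rfl
  | insert a s ha ih =>
    rw [Finset.prod_insert ha, Finset.prod_insert ha, char_mul_coe, ih]

theorem char_pow_coe (χ : K →ₜ* Circle) (n : ℕ) (x : K) :
    (((χ ^ n) x : Circle) : ℂ) = ((χ x : Circle) : ℂ) ^ n := by
  induction n with
  | zero => simp only [pow_zero]; rfl
  | succ n ih => rw [pow_succ, pow_succ, char_mul_coe, ih]

theorem char_norm (χ : K →ₜ* Circle) (x : K) : ‖((χ x : Circle) : ℂ)‖ = 1 := Circle.norm_coe _

section meas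

variable [MeasurableSpace K] [BorelSpace K] (μ : Measure K) [IsProbabilityMeasure μ]
  [μ.IsMulLeftInvariant]

theorem integrable_cont {E : Type*} [NormedAddCommGroup E] {f : K → E} (hf : Continuous f) :
    Integrable f μ :=
  hf.integrable_of_hasCompactSupport (HasCompactSupport.of_compactSpace _)

theorem int_char_ne {χ : K →ₜ* Circle} (h : χ ≠ 1) : ∫ x, ((χ x : Circle) : ℂ) ∂μ = 0 := by
  obtain ⟨x0, hx0⟩ : ∃ x0, χ x0 ≠ 1 := by
    by_contra hcon
    push Not at hcon
    apply h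
    ext x
    rw [hcon x]
    rfl
  have h1 := integral_mul_left_eq_self (μ := μ) (fun x => ((χ x : Circle) : ℂ)) x0
  have h2 : ∀ x, ((χ (x0 * x) : Circle) : ℂ) = ((χ x0 : Circle) : ℂ) * ((χ x : Circle) : ℂ) := by
    intro x
    rw [map_mul]
    rfl
  simp only [h2] at h1
  rw [integral_const_mul] at h1
  have h3 : (((χ x0 : Circle) : ℂ) - 1) * ∫ x, ((χ x : Circle) : ℂ) ∂μ = 0 := by
    rw [sub_mul, h1, one_mul, sub_self]
  rcases mul_eq_zero.1 h3 with h4 | h4
  · exfalso
    apply hx0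
    apply Subtype.ext
    exact sub_eq_zero.1 h4
  · exact h4

theorem int_char [DecidableEq (K →ₜ* Circle)] (χ : K →ₜ* Circle) :
    ∫ x, ((χ x : Circle) : ℂ) ∂μ = if χ = 1 then 1 else 0 := by
  split_ifs with h
  · subst h
    simp only [char_one_coe]
    simp
  · exact int_char_ne μ h

/-- Parseval -/
theorem int_sq [DecidableEq (K →ₜ* Circle)] {ι : Type*} (P : Finset ι) (W : ι → ℝ) (z : ι → K →ₜ* Circle) :
    ∫ x, ‖∑ p ∈ P, (W p : ℂ) * ((z p x : Circle) : ℂ)‖ ^ 2 ∂μ =
      ∑ p ∈ P, ∑ q ∈ P, if z p = z q then W p * W q else 0 := by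
  have h1 : ∀ x : K, ((‖∑ p ∈ P, (W p : ℂ) * ((z p x : Circle) : ℂ)‖ ^ 2 : ℝ) : ℂ) =
      ∑ p ∈ P, ∑ q ∈ P, ((W p * W q : ℝ) : ℂ) * (((z p * (z q)⁻¹) x : Circle) : ℂ) := by
    intro x
    rw [← Complex.normSq_eq_norm_sq, ← Complex.mul_conj, map_sum, Finset.sum_mul_sum]
    refine Finset.sum_congr rfl fun p _ => Finset.sum_congr rfl fun q _ => ?_
    rw [map_mul, Complex.conj_ofReal, char_mul_coe]
    have : (((z q)⁻¹ x : Circle) : ℂ) = conj ((z q x : Circle) : ℂ) := by
      have h2 : ((z q)⁻¹ x : Circle) = (z q x)⁻¹ := rfl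
      rw [h2, Circle.coe_inv_eq_conj]
    rw [this]
    push_cast
    ring
  have h2 : ((∫ x, ‖∑ p ∈ P, (W p : ℂ) * ((z p x : Circle) : ℂ)‖ ^ 2 ∂μ : ℝ) : ℂ) =
      ((∑ p ∈ P, ∑ q ∈ P, if z p = z q then W p * W q else 0 : ℝ) : ℂ) := by
    rw [← integral_complex_ofReal]
    simp only [h1]
    rw [integral_finsetSum]
    · push_cast
      refine Finset.sum_congr rfl fun p _ => ?_
      rw [integral_finsetSum]
      · refine Finset.sum_congr rfl fun q _ => ?_
        rw [integral_const_mul, int_char]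
        by_cases hpq : z p = z q
        · rw [if_pos hpq, if_pos (mul_inv_eq_one.mpr hpq)]
          simp
        · rw [if_neg hpq, if_neg (fun h => hpq (mul_inv_eq_one.mp h))]
          simp
      · intro q _
        exact integrable_cont μ (continuous_const.mul (char_cont _))
    · intro p _
      apply integrable_finsetSum
      intro q _
      exact integrable_cont μ (continuous_const.mul (char_cont _))
  exact_mod_cast h2

end meas

/-- a trigonometric polynomial with nonnegative coefficients of sum one, small off a neighbourhood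
of the identity -/
theorem exists_peak (V : Set K) (hV : IsOpen V) (h1 : (1 : K) ∈ V) (θ : ℝ) (hθ : 0 < θ) :
    ∃ (ι : Type) (P : Finset ι) (W : ι → ℝ) (z : ι → K →ₜ* Circle), P.Nonempty ∧
      (∀ p, 0 ≤ W p) ∧ ∑ p ∈ P, W p = 1 ∧
      ∀ x, x ∉ V → ‖∑ p ∈ P, (W p : ℂ) * ((z p x : Circle) : ℂ)‖ ^ 2 ≤ θ := by
  classical
  -- separating characters
  have hsep : ∀ x : K, ∃ χ : K →ₜ* Circle, x ∉ V → χ x ≠ 1 := by
    intro x
    by_cases hx : x ∈ V
    · exact ⟨1, fun h => absurd hx h⟩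
    · have hx1 : x ≠ 1 := fun h => hx (h ▸ h1)
      obtain ⟨χ, hχ⟩ := Pool.LatH472.chars x hx1
      exact ⟨χ, fun _ => hχ⟩
  choose χ hχ using hsep
  let d : K → ℝ := fun x => ‖((χ x x : Circle) : ℂ) - 1‖ / 2
  have hd : ∀ x, x ∉ V → 0 < d x := by
    intro x hx
    have : ((χ x x : Circle) : ℂ) - 1 ≠ 0 := by
      intro h
      apply hχ x hx
      apply Subtype.ext
      exact sub_eq_zero.mp h
    have := norm_pos_iff.mpr this
    show 0 < ‖((χ x x : Circle) : ℂ) - 1‖ / 2
    linarith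
  have hcomp : IsCompact Vᶜ := hV.isClosed_compl.isCompact
  obtain ⟨t, ht, htc⟩ := hcomp.elim_nhds_subcover
    (fun x => {y | d x < ‖((χ x y : Circle) : ℂ) - 1‖}) (by
      intro x hx
      apply IsOpen.mem_nhds
      · exact isOpen_lt continuous_const (((char_cont (χ x)).sub continuous_const).norm)
      · show d x < ‖((χ x x : Circle) : ℂ) - 1‖
        have := hd x hx
        have h2 : ‖((χ x x : Circle) : ℂ) - 1‖ = 2 * d x := by
          show _ = 2 * (‖((χ x x : Circle) : ℂ) - 1‖ / 2)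
          ring
        linarith)
  -- choose m
  obtain ⟨m, hm0, hm⟩ : ∃ m : ℕ, 0 < m ∧ ∀ x ∈ t, (2 / (m * d x)) ^ 2 ≤ θ := by
    have hev : ∀ x ∈ t, ∀ᶠ m : ℕ in atTop, (2 / (m * d x)) ^ 2 ≤ θ := by
      intro x hx
      have hdx := hd x (ht x hx)
      have h2 : Tendsto (fun m : ℕ => (2 / (m * d x)) ^ 2) atTop (𝓝 (0 ^ 2)) := by
        apply Tendsto.pow
        apply Tendsto.div_atTop tendsto_const_nhds
        exact tendsto_natCast_atTop_atTop.atTop_mul_const hdx
      rw [zero_pow two_ne_zero] at h2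
      exact h2.eventually_le_const hθ
    have hev2 : ∀ᶠ m : ℕ in atTop, ∀ x ∈ t, (2 / (m * d x)) ^ 2 ≤ θ := by
      rw [Filter.eventually_all_finset]
      exact hev
    obtain ⟨m, hm1, hm2⟩ := (hev2.and (eventually_gt_atTop 0)).exists
    exact ⟨m, hm2, hm1⟩
  have hm0' : (0 : ℝ) < m := by exact_mod_cast hm0
  -- geometric sums
  have hgeo : ∀ x ∈ t, ∀ y : K, d x < ‖((χ x y : Circle) : ℂ) - 1‖ →
      ‖∑ j ∈ Finset.range m, ((1 / m : ℝ) : ℂ) * ((χ x y : Circle) : ℂ) ^ j‖ ≤ 2 / (m * d x) := by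
    intro x hx y hy
    have hdx := hd x (ht x hx)
    have hne : ((χ x y : Circle) : ℂ) ≠ 1 := by
      intro h
      rw [h, sub_self, norm_zero] at hy
      linarith
    rw [← Finset.mul_sum, geom_sum_eq hne, norm_mul, norm_div]
    have h2 : ‖((χ x y : Circle) : ℂ) ^ m - 1‖ ≤ 2 := by
      refine (norm_sub_le _ _).trans ?_
      rw [norm_pow, char_norm, one_pow, norm_one]
      norm_num
    have h3 : ‖((1 / m : ℝ) : ℂ)‖ = 1 / m := by
      rw [Complex.norm_real, Real.norm_eq_abs, abs_of_pos (by positivity)]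
    rw [h3]
    have h4 : ‖((χ x y : Circle) : ℂ) ^ m - 1‖ / ‖((χ x y : Circle) : ℂ) - 1‖ ≤ 2 / d x :=
      div_le_div₀ (by norm_num) h2 hdx hy.le
    calc 1 / (m : ℝ) * (‖((χ x y : Circle) : ℂ) ^ m - 1‖ / ‖((χ x y : Circle) : ℂ) - 1‖)
        ≤ 1 / (m : ℝ) * (2 / d x) := by
          apply mul_le_mul_of_nonneg_left h4 (by positivity)
      _ = 2 / (m * d x) := by
          field_simp
  have hone : ∀ x y : K,
      ‖∑ j ∈ Finset.range m, ((1 / m : ℝ) : ℂ) * ((χ x y : Circle) : ℂ) ^ j‖ ≤ 1 := by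
    intro x y
    refine (norm_sum_le _ _).trans ?_
    have : ∀ j ∈ Finset.range m, ‖((1 / m : ℝ) : ℂ) * ((χ x y : Circle) : ℂ) ^ j‖ = 1 / m := by
      intro j _
      rw [norm_mul, norm_pow, char_norm, one_pow, mul_one, Complex.norm_real, Real.norm_eq_abs,
        abs_of_pos (by positivity)]
    rw [Finset.sum_congr rfl this, Finset.sum_const, Finset.card_range, nsmul_eq_mul]
    field_simp
    rfl
  -- the product
  let n := t.card
  let e : Fin n ≃ t := t.equivFin.symm
  let c : Fin n → K →ₜ* Circle := fun i => χ (e i)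
  refine ⟨Fin n → ℕ, Fintype.piFinset fun _ => Finset.range m, fun _ => ∏ _i : Fin n, (1 / m : ℝ),
    fun j => ∏ i, c i ^ j i, ?_, ?_, ?_, ?_⟩
  · rw [Fintype.piFinset_nonempty]
    intro _
    exact ⟨0, Finset.mem_range.mpr hm0⟩
  · intro _
    apply Finset.prod_nonneg
    intro _ _
    positivity
  · rw [Finset.sum_const, Fintype.card_piFinset, nsmul_eq_mul]
    push_cast
    rw [← Finset.prod_mul_distrib]
    apply Finset.prod_eq_one
    intro _ _
    rw [Finset.card_range]
    field_simp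
  · intro y hy
    have hprod : ∑ j ∈ Fintype.piFinset (fun _ : Fin n => Finset.range m),
        ((∏ _i : Fin n, (1 / m : ℝ) : ℝ) : ℂ) * (((∏ i, c i ^ j i) y : Circle) : ℂ) =
        ∏ i : Fin n, ∑ j ∈ Finset.range m, ((1 / m : ℝ) : ℂ) * ((c i y : Circle) : ℂ) ^ j := by
      rw [Finset.prod_univ_sum]
      refine Finset.sum_congr rfl fun j _ => ?_
      rw [char_prod_coe, Complex.ofReal_prod, ← Finset.prod_mul_distrib]
      refine Finset.prod_congr rfl fun i _ => ?_
      rw [char_pow_coe]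
    rw [hprod, norm_prod]
    have hy' : y ∈ ⋃ x ∈ t, {y | d x < ‖((χ x y : Circle) : ℂ) - 1‖} := htc hy
    rw [mem_iUnion₂] at hy'
    obtain ⟨x, hx, hxy⟩ := hy'
    let i0 : Fin n := e.symm ⟨x, hx⟩
    have hci : c i0 = χ x := by
      show χ (e (e.symm ⟨x, hx⟩)) = χ x
      rw [Equiv.apply_symm_apply]
    have h5 : ∏ i : Fin n, ‖∑ j ∈ Finset.range m, ((1 / m : ℝ) : ℂ) * ((c i y : Circle) : ℂ) ^ j‖ ≤
        2 / (m * d x) := by
      rw [← Finset.mul_prod_erase _ _ (Finset.mem_univ i0)]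
      have h6 : ‖∑ j ∈ Finset.range m, ((1 / m : ℝ) : ℂ) * ((c i0 y : Circle) : ℂ) ^ j‖ ≤
          2 / (m * d x) := by
        rw [hci]
        exact hgeo x hx y hxy
      have h7 : ∏ i ∈ Finset.univ.erase i0,
          ‖∑ j ∈ Finset.range m, ((1 / m : ℝ) : ℂ) * ((c i y : Circle) : ℂ) ^ j‖ ≤ 1 := by
        apply Finset.prod_le_one
        · intro i _
          exact norm_nonneg _
        · intro i _
          exact hone _ _
      have hdx := hd x (ht x hx)
      calc _ ≤ 2 / (m * d x) * 1 := mul_le_mul h6 h7 (Finset.prod_nonneg fun _ _ => norm_nonneg _)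
            (by positivity)
        _ = 2 / (m * d x) := mul_one _
    have h8 : 0 ≤ ∏ i : Fin n,
        ‖∑ j ∈ Finset.range m, ((1 / m : ℝ) : ℂ) * ((c i y : Circle) : ℂ) ^ j‖ :=
      Finset.prod_nonneg fun _ _ => norm_nonneg _
    exact (pow_le_pow_left₀ h8 h5 2).trans (hm x hx)

end Pool.Agent.Q184.Bridge
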