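import Mathlib
import Pool.Agent.Q184.Bridge.Char

/-!
The two inequalities between covering numbers and trajectories.
-/

set_option autoImplicit false
set_option linter.unusedSectionVars false

open MeasureTheory Filter Topology Set
open scoped ComplexConjugate

namespace Pool.Agent.Q184.Bridge

universe u v

variable {K : Type u} [CommGroup K] [TopologicalSpace K] [IsTopologicalGroup K]
  [CompactSpace K] [T2Space K]
variable {S : Type v} (γ : S → K →ₜ* K)

/-- The join of the preimages of a cover. -/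
def joinCover (F : Finset S) (𝒰 : Set (Set K)) : Set (Set K) :=
  {W | ∃ f : S → Set K, (∀ s ∈ F, f s ∈ 𝒰) ∧ W = ⋂ s ∈ F, γ s ⁻¹' f s}

/-- The least size of a subcover. -/
noncomputable def coverNum (𝒰 : Set (Set K)) : ℕ :=
  sInf {n | ∃ 𝒱 ⊆ 𝒰, 𝒱.Finite ∧ 𝒱.ncard = n ∧ ⋃₀ 𝒱 = univ}

/-- product characters -/
noncomputable def zF (F : Finset S) {ι : Type*} (z : ι → K →ₜ* Circle) (p : F → ι) :
    K →ₜ* Circle :=
  ∏ s : F, (z (p s)).comp (γ (s : S))

/-- The trajectory. -/
def traj (F : Finset S) (X : Set (K →ₜ* Circle)) : Set (K →ₜ* Circle) :=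
  {ψ | ∃ x : F → (K →ₜ* Circle), (∀ s, x s ∈ X) ∧ ψ = ∏ s : F, (x s).comp (γ (s : S))}

theorem zF_coe (F : Finset S) {ι : Type*} (z : ι → K →ₜ* Circle) (p : F → ι) (x : K) :
    ((zF γ F z p x : Circle) : ℂ) = ∏ s : F, ((z (p s) (γ (s : S) x) : Circle) : ℂ) := by
  unfold zF
  rw [char_prod_coe]
  rfl

theorem expand [DecidableEq S] (F : Finset S) {ι : Type*} (P : Finset ι) (W : ι → ℝ)
    (z : ι → K →ₜ* Circle) (x : K) :
    ∏ s : F, ∑ b ∈ P, (W b : ℂ) * ((z b (γ (s : S) x) : Circle) : ℂ) =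
      ∑ p ∈ Fintype.piFinset (fun _ : F => P),
        ((∏ s : F, W (p s) : ℝ) : ℂ) * ((zF γ F z p x : Circle) : ℂ) := by
  rw [Finset.prod_univ_sum]
  refine Finset.sum_congr rfl fun p _ => ?_
  rw [zF_coe, Complex.ofReal_prod, ← Finset.prod_mul_distrib]

theorem traj_eq_image [DecidableEq S] (F : Finset S) [DecidableEq (K →ₜ* Circle)] (A : Finset (K →ₜ* Circle)) :
    traj γ F (A : Set (K →ₜ* Circle)) =
      (((Fintype.piFinset fun _ : F => A).image (zF γ F id) : Finset (K →ₜ* Circle)) :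
        Set (K →ₜ* Circle)) := by
  ext ψ
  simp only [Finset.coe_image, Set.mem_image, Finset.mem_coe, Fintype.mem_piFinset]
  constructor
  · rintro ⟨x, hx, rfl⟩
    exact ⟨x, hx, rfl⟩
  · rintro ⟨x, hx, rfl⟩
    exact ⟨x, hx, rfl⟩

theorem traj_finite (F : Finset S) (A : Finset (K →ₜ* Circle)) :
    (traj γ F (A : Set (K →ₜ* Circle))).Finite := by
  classical
  rw [traj_eq_image]
  exact Finset.finite_toSet _

theorem traj_nonempty (F : Finset S) (A : Finset (K →ₜ* Circle)) (hA : A.Nonempty) :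
    (traj γ F (A : Set (K →ₜ* Circle))).Nonempty := by
  obtain ⟨a, ha⟩ := hA
  exact ⟨_, fun _ => a, fun _ => ha, rfl⟩

theorem zF_mul (F : Finset S) (p q : F → K →ₜ* Circle) :
    zF γ F id (fun s => p s * q s) = zF γ F id p * zF γ F id q := by
  unfold zF
  rw [← Finset.prod_mul_distrib]
  rfl

open scoped Pointwise in
/-- the counting inequality -/
theorem count [DecidableEq S] [DecidableEq (K →ₜ* Circle)] (F : Finset S) (A B : Finset (K →ₜ* Circle)) :
    (traj γ F (A : Set (K →ₜ* Circle))).ncard *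
      (((Fintype.piFinset fun _ : F => B) ×ˢ (Fintype.piFinset fun _ : F => B)).filter
        fun pq => zF γ F id pq.1 = zF γ F id pq.2).card ≤
      (A * B).card ^ F.card * B.card ^ F.card := by
  rw [traj_eq_image, Set.ncard_coe_finset]
  -- representatives
  have hrep : ∀ a : K →ₜ* Circle, ∃ α : F → K →ₜ* Circle,
      a ∈ (Fintype.piFinset fun _ : F => A).image (zF γ F id) →
        α ∈ (Fintype.piFinset fun _ : F => A) ∧ zF γ F id α = a := by
    intro a
    by_cases h : a ∈ (Fintype.piFinset fun _ : F => A).image (zF γ F id)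
    · obtain ⟨α, h1, h2⟩ := Finset.mem_image.mp h
      exact ⟨α, fun _ => ⟨h1, h2⟩⟩
    · exact ⟨fun _ => 1, fun h' => absurd h' h⟩
  choose α hα using hrep
  rw [← Finset.card_product]
  have hcard : (A * B).card ^ F.card * B.card ^ F.card =
      ((Fintype.piFinset fun _ : F => A * B) ×ˢ (Fintype.piFinset fun _ : F => B)).card := by
    rw [Finset.card_product, Fintype.card_piFinset, Fintype.card_piFinset]
    simp
  rw [hcard]
  apply Finset.card_le_card_of_injOn
    (fun apq => ((fun s => α apq.1 s * apq.2.1 s), apq.2.2))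
  · rintro ⟨a, p, q⟩ h
    simp only [Finset.coe_product, Set.mem_prod, Finset.mem_coe, Finset.mem_filter,
      Finset.mem_product, Fintype.mem_piFinset] at h ⊢
    obtain ⟨ha, ⟨hp, hq⟩, _⟩ := h
    refine ⟨fun s => Finset.mul_mem_mul ?_ (hp s), hq⟩
    exact Fintype.mem_piFinset.mp (hα a ha).1 s
  · rintro ⟨a, p, q⟩ h ⟨a', p', q'⟩ h' heq
    simp only [Finset.coe_product, Set.mem_prod, Finset.mem_coe, Finset.mem_filter,
      Finset.mem_product] at h h'
    simp only [Prod.mk.injEq] at heq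
    obtain ⟨h1, h2⟩ := heq
    subst h2
    have e1 := congrArg (zF γ F id) h1
    rw [zF_mul, zF_mul, (hα a h.1).2, (hα a' h'.1).2, h.2.2, h'.2.2] at e1
    have e2 : a = a' := mul_right_cancel e1
    subst e2
    have e3 : p = p' := by
      funext s
      exact mul_left_cancel (congrFun h1 s)
    rw [e3]

open scoped Pointwise in
/-- a Følner set for a finite subset of an abelian group -/
theorem exists_folner {D : Type*} [CommGroup D] [DecidableEq D] (A : Finset D) (ρ : ℝ)
    (hρ : 1 < ρ) : ∃ B : Finset D, B.Nonempty ∧ ((A * B).card : ℝ) ≤ ρ * B.card := by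
  let Bm : ℕ → Finset D := fun m =>
    (Fintype.piFinset fun _ : A => Finset.range m).image fun n => ∏ a : A, (a : D) ^ n a
  have hne : ∀ m, 0 < m → (Bm m).Nonempty := by
    intro m hm
    refine (Fintype.piFinset_nonempty.mpr fun _ => ⟨0, Finset.mem_range.mpr hm⟩).image _
  have hcard : ∀ m, (Bm m).card ≤ m ^ A.card := by
    intro m
    refine Finset.card_image_le.trans ?_
    rw [Fintype.card_piFinset]
    simp
  have hsub : ∀ m, A * Bm m ⊆ Bm (m + 1) := by
    intro m d hd
    obtain ⟨a, ha, b, hb, rfl⟩ := Finset.mem_mul.mp hd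
    obtain ⟨n, hn, rfl⟩ := Finset.mem_image.mp hb
    refine Finset.mem_image.mpr ⟨n + Pi.single (⟨a, ha⟩ : A) 1, ?_, ?_⟩
    · rw [Fintype.mem_piFinset] at hn ⊢
      intro i
      have h1 := Finset.mem_range.mp (hn i)
      rw [Finset.mem_range, Pi.add_apply]
      have h2 : (Pi.single (⟨a, ha⟩ : A) 1 : A → ℕ) i ≤ 1 := by
        by_cases h : i = ⟨a, ha⟩
        · subst h; simp
        · rw [Pi.single_eq_of_ne h]; exact Nat.zero_le _
      omega
    · simp only [Pi.add_apply, pow_add, Finset.prod_mul_distrib]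
      rw [mul_comm]
      congr 1
      rw [Finset.prod_eq_single (⟨a, ha⟩ : A)]
      · simp
      · intro b _ hb
        rw [Pi.single_eq_of_ne hb, pow_zero]
      · intro h
        exact absurd (Finset.mem_univ _) h
  by_contra hcon
  push Not at hcon
  have hgrow : ∀ m : ℕ, ρ ^ m ≤ ((Bm (m + 1)).card : ℝ) := by
    intro m
    induction m with
    | zero =>
      have := (hne 1 one_pos).card_pos
      rw [pow_zero]
      exact_mod_cast this
    | succ m ih =>
      have h1 := hcon (Bm (m + 1)) (hne _ (Nat.succ_pos m))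
      have h2 : ((A * Bm (m + 1)).card : ℝ) ≤ ((Bm (m + 1 + 1)).card : ℝ) := by
        exact_mod_cast Finset.card_le_card (hsub (m + 1))
      have h3 : ρ * ρ ^ m ≤ ρ * ((Bm (m + 1)).card : ℝ) := by
        apply mul_le_mul_of_nonneg_left ih
        linarith
      rw [pow_succ, mul_comm]
      linarith
  have hlim := tendsto_pow_const_div_const_pow_of_one_lt A.card hρ
  have hlim2 : Tendsto (fun m : ℕ => ((m + 1 : ℕ) : ℝ) ^ A.card / ρ ^ (m + 1)) atTop (𝓝 0) :=
    hlim.comp (tendsto_add_atTop_nat 1)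
  have hpos : (0 : ℝ) < 1 / ρ := by positivity
  obtain ⟨m, hm⟩ := (hlim2.eventually_lt_const hpos).exists
  have h1 : ρ ^ m ≤ ((m + 1 : ℕ) : ℝ) ^ A.card := by
    refine (hgrow m).trans ?_
    exact_mod_cast hcard (m + 1)
  have hρ0 : 0 < ρ := by linarith
  rw [div_lt_iff₀ (by positivity), pow_succ] at hm
  have h2 : 1 / ρ * (ρ ^ m * ρ) = ρ ^ m := by field_simp
  rw [h2] at hm
  linarith

/-- the subset of `K` of the points whose images under `F` lie in `U` -/
def UF (F : Finset S) (U : Set K) : Set K := {x | ∀ s : F, γ (s : S) x ∈ U}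

theorem UF_open (F : Finset S) {U : Set K} (hU : IsOpen U) : IsOpen (UF γ F U) := by
  have : UF γ F U = ⋂ s : F, (γ (s : S)) ⁻¹' U := by
    ext x
    simp [UF]
  rw [this]
  exact isOpen_iInter_of_finite fun s => hU.preimage (γ (s : S)).continuous_toFun

theorem one_mem_UF (F : Finset S) {U : Set K} (hU : (1 : K) ∈ U) : (1 : K) ∈ UF γ F U := by
  intro s
  rw [map_one]
  exact hU

section meas

variable [MeasurableSpace K] [BorelSpace K] (μ : Measure K) [IsProbabilityMeasure μ]
  [μ.IsMulLeftInvariant]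

/-- a set whose quotients map into `U` is small -/
theorem meas_le (F : Finset S) {U : Set K} (Q : Set K)
    (hQ : ∀ x ∈ Q, ∀ y ∈ Q, ∀ s : F, γ (s : S) x / γ (s : S) y ∈ U) :
    μ.real Q ≤ μ.real (UF γ F U) := by
  rcases Q.eq_empty_or_nonempty with h | ⟨x0, hx0⟩
  · rw [h, measureReal_empty]
    exact measureReal_nonneg
  · have h1 : Q ⊆ (fun x => x0⁻¹ * x) ⁻¹' (UF γ F U) := by
      intro x hx s
      rw [map_mul, map_inv, mul_comm, ← div_eq_mul_inv]
      exact hQ x hx x0 hx0 s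
    have h2 : μ ((fun x => x0⁻¹ * x) ⁻¹' (UF γ F U)) = μ (UF γ F U) :=
      measure_preimage_mul μ _ _
    have h3 : μ.real ((fun x => x0⁻¹ * x) ⁻¹' (UF γ F U)) = μ.real (UF γ F U) := by
      rw [Measure.real, Measure.real, h2]
    rw [← h3]
    exact measureReal_mono h1

open scoped Pointwise in
/-- first inequality, for a fixed `F` -/
theorem lower_aux [DecidableEq S] [DecidableEq (K →ₜ* Circle)] (F : Finset S) (A B : Finset (K →ₜ* Circle)) (hB : B.Nonempty) (ρ : ℝ)
    (hρ : 1 < ρ) (hAB : (((A * B : Finset (K →ₜ* Circle))).card : ℝ) ≤ ρ * B.card) :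
    ((traj γ F (A : Set (K →ₜ* Circle))).ncard : ℝ) *
      μ.real (UF γ F {x | ρ⁻¹ * B.card < ‖∑ b ∈ B, ((b x : Circle) : ℂ)‖}) ≤ (ρ ^ 3) ^ F.card := by
  set U : Set K := {x | ρ⁻¹ * B.card < ‖∑ b ∈ B, ((b x : Circle) : ℂ)‖} with hU
  have hρ0 : 0 < ρ := by linarith
  have hBc : (0 : ℝ) < B.card := by exact_mod_cast hB.card_pos
  let N1 : ℕ := (((Fintype.piFinset fun _ : F => B) ×ˢ (Fintype.piFinset fun _ : F => B)).filter
        fun pq => zF γ F id pq.1 = zF γ F id pq.2).card
  have hint := int_sq μ (Fintype.piFinset fun _ : F => B) (fun _ => (1 : ℝ)) (zF γ F id)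
  have hN : ∑ p ∈ Fintype.piFinset (fun _ : F => B), ∑ q ∈ Fintype.piFinset (fun _ : F => B),
      (if zF γ F id p = zF γ F id q then (1 : ℝ) * 1 else 0) = (N1 : ℝ) := by
    rw [← Finset.sum_product', Finset.sum_ite, Finset.sum_const_zero, add_zero, mul_one,
      Finset.sum_const, nsmul_eq_mul, mul_one]
  rw [hN] at hint
  -- lower bound of the integral
  have hexp : ∀ x : K, ∑ p ∈ Fintype.piFinset (fun _ : F => B),
      ((1 : ℝ) : ℂ) * ((zF γ F id p x : Circle) : ℂ) =
      ∏ s : F, ∑ b ∈ B, ((b (γ (s : S) x) : Circle) : ℂ) := by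
    intro x
    have := expand γ F B (fun _ => (1 : ℝ)) id x
    simp only [Finset.prod_const_one, Complex.ofReal_one, one_mul, id] at this ⊢
    exact this.symm
  have hlow : ((ρ⁻¹ * B.card) ^ F.card) ^ 2 * μ.real (UF γ F U) ≤ N1 := by
    rw [← hint]
    have hcont : Continuous fun x : K => ‖∑ p ∈ Fintype.piFinset (fun _ : F => B),
        ((1 : ℝ) : ℂ) * ((zF γ F id p x : Circle) : ℂ)‖ ^ 2 := by
      apply Continuous.pow
      apply Continuous.norm
      apply continuous_finsetSum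
      intro p _
      exact continuous_const.mul (char_cont _)
    refine le_trans ?_ (mul_meas_ge_le_integral_of_nonneg
      (Eventually.of_forall fun x => by positivity) (integrable_cont μ hcont)
      (((ρ⁻¹ * B.card) ^ F.card) ^ 2))
    apply mul_le_mul_of_nonneg_left _ (by positivity)
    refine measureReal_mono ?_ (measure_ne_top _ _)
    intro x hx
    show ((ρ⁻¹ * B.card) ^ F.card) ^ 2 ≤ ‖∑ p ∈ Fintype.piFinset (fun _ : F => B),
        ((1 : ℝ) : ℂ) * ((zF γ F id p x : Circle) : ℂ)‖ ^ 2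
    rw [hexp x, norm_prod]
    apply pow_le_pow_left₀ (by positivity)
    have h1 : (ρ⁻¹ * (B.card : ℝ)) ^ F.card = ∏ _s : F, (ρ⁻¹ * (B.card : ℝ)) := by
      rw [Finset.prod_const, Finset.card_univ, Fintype.card_coe]
    rw [h1]
    apply Finset.prod_le_prod
    · intro _ _
      positivity
    · intro s _
      exact (hx s).le
  have hc := count γ F A B
  have hc' : ((traj γ F (A : Set (K →ₜ* Circle))).ncard : ℝ) * (N1 : ℝ) ≤
      ((A * B : Finset (K →ₜ* Circle)).card : ℝ) ^ F.card * (B.card : ℝ) ^ F.card := by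
    exact_mod_cast hc
  have h5 : ((A * B : Finset (K →ₜ* Circle)).card : ℝ) ^ F.card * (B.card : ℝ) ^ F.card ≤
      (ρ * B.card) ^ F.card * (B.card : ℝ) ^ F.card := by
    apply mul_le_mul_of_nonneg_right _ (by positivity)
    exact pow_le_pow_left₀ (by positivity) hAB _
  have h6 : ((traj γ F (A : Set (K →ₜ* Circle))).ncard : ℝ) *
      (((ρ⁻¹ * B.card) ^ F.card) ^ 2 * μ.real (UF γ F U)) ≤
      (ρ * B.card) ^ F.card * (B.card : ℝ) ^ F.card :=
    (mul_le_mul_of_nonneg_left hlow (by positivity)).trans (hc'.trans h5)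
  have h7 : (ρ * (B.card : ℝ)) ^ F.card * (B.card : ℝ) ^ F.card =
      ((ρ⁻¹ * B.card) ^ F.card) ^ 2 * (ρ ^ 3) ^ F.card := by
    rw [← pow_mul, mul_comm F.card 2, pow_mul, ← mul_pow, ← mul_pow]
    congr 1
    field_simp
  rw [h7] at h6
  have h8 : 0 < ((ρ⁻¹ * (B.card : ℝ)) ^ F.card) ^ 2 := by positivity
  have h9 : ((ρ⁻¹ * (B.card : ℝ)) ^ F.card) ^ 2 *
      (((traj γ F (A : Set (K →ₜ* Circle))).ncard : ℝ) * μ.real (UF γ F U)) ≤
      ((ρ⁻¹ * B.card) ^ F.card) ^ 2 * (ρ ^ 3) ^ F.card := by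
    calc _ = ((traj γ F (A : Set (K →ₜ* Circle))).ncard : ℝ) *
      (((ρ⁻¹ * B.card) ^ F.card) ^ 2 * μ.real (UF γ F U)) := by ring
      _ ≤ _ := h6
  exact le_of_mul_le_mul_left h9 h8

end meas

end Pool.Agent.Q184.Bridge
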