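import Mathlib
import Pool.Agent.Q184.Bridge.Core

/-!
The two inequalities between covering numbers and trajectories, continued.
-/

set_option autoImplicit false
set_option linter.unusedSectionVars false

open MeasureTheory Filter Topology Set
open scoped ComplexConjugate

namespace Pool.Agent.Q184.Bridge

universe u v

variable {K : Type u} [CommGroup K] [TopologicalSpace K] [IsTopologicalGroup K]
  [CompactSpace K] [T2Space K]
variable {S : Type v} (γ : S → K →ₜ* K)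

theorem joinCover_finite (F : Finset S) {𝒰 : Set (Set K)} (h : 𝒰.Finite) :
    (joinCover γ F 𝒰).Finite := by
  haveI : Finite 𝒰 := h
  refine (Set.finite_range (fun g : F → 𝒰 => ⋂ s : F, γ (s : S) ⁻¹' (g s : Set K))).subset ?_
  rintro W ⟨f, hf, rfl⟩
  refine ⟨fun s => ⟨f s, hf s s.2⟩, ?_⟩
  ext x
  simp

theorem joinCover_cover (F : Finset S) {𝒰 : Set (Set K)} (h : ⋃₀ 𝒰 = univ) :
    ⋃₀ joinCover γ F 𝒰 = univ := by
  rw [eq_univ_iff_forall] at h ⊢
  intro x
  have h1 : ∀ s : S, ∃ U ∈ 𝒰, γ s x ∈ U := fun s => h (γ s x)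
  choose f hf hfx using h1
  refine ⟨⋂ s ∈ F, γ s ⁻¹' f s, ⟨f, fun s _ => hf s, rfl⟩, ?_⟩
  simp only [mem_iInter, mem_preimage]
  exact fun s _ => hfx s

theorem coverNum_spec {𝒰 : Set (Set K)} (hfin : 𝒰.Finite) (hcov : ⋃₀ 𝒰 = univ) :
    ∃ 𝒱 ⊆ 𝒰, 𝒱.Finite ∧ 𝒱.ncard = coverNum 𝒰 ∧ ⋃₀ 𝒱 = univ :=
  Nat.sInf_mem (s := {n | ∃ 𝒱 ⊆ 𝒰, 𝒱.Finite ∧ 𝒱.ncard = n ∧ ⋃₀ 𝒱 = univ})
    ⟨𝒰.ncard, 𝒰, Subset.rfl, hfin, rfl, hcov⟩

theorem coverNum_le {𝒰 𝒱 : Set (Set K)} (h : 𝒱 ⊆ 𝒰) (hfin : 𝒱.Finite) (hcov : ⋃₀ 𝒱 = univ) :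
    coverNum 𝒰 ≤ 𝒱.ncard :=
  Nat.sInf_le ⟨𝒱, h, hfin, rfl, hcov⟩

theorem coverNum_pos {𝒰 : Set (Set K)} (hfin : 𝒰.Finite) (hcov : ⋃₀ 𝒰 = univ) :
    0 < coverNum 𝒰 := by
  obtain ⟨𝒱, _, hf, hn, hc⟩ := coverNum_spec hfin hcov
  rw [← hn, Set.ncard_pos hf]
  by_contra hne
  rw [Set.not_nonempty_iff_eq_empty] at hne
  rw [hne, sUnion_empty] at hc
  exact (univ_nonempty (α := K)).ne_empty hc.symm

/-- splitting of neighbourhoods -/
theorem exists_split (U : Set K) (hU : IsOpen U) (h1 : (1 : K) ∈ U) :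
    ∃ V : Set K, IsOpen V ∧ (1 : K) ∈ V ∧ ∀ v ∈ V, ∀ w ∈ V, v / w ∈ U := by
  obtain ⟨V, hV, h⟩ := exists_nhds_split_inv (hU.mem_nhds h1)
  exact ⟨interior V, isOpen_interior, mem_interior_iff_mem_nhds.mpr hV,
    fun v hv w hw => h v (interior_subset hv) w (interior_subset hw)⟩

/-- finitely many translates cover -/
theorem exists_translates (V : Set K) (hV : IsOpen V) (h1 : (1 : K) ∈ V) :
    ∃ t : Finset K, ∀ x, ∃ y ∈ t, y⁻¹ * x ∈ V := by
  obtain ⟨t, -, ht⟩ := (isCompact_univ (X := K)).elim_nhds_subcover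
    (fun y => {x | y⁻¹ * x ∈ V}) (by
      intro y _
      apply IsOpen.mem_nhds
      · exact hV.preimage (continuous_const.mul continuous_id)
      · show y⁻¹ * y ∈ V
        rwa [inv_mul_cancel])
  refine ⟨t, fun x => ?_⟩
  have := ht (mem_univ x)
  rw [mem_iUnion₂] at this
  obtain ⟨y, hy, hyx⟩ := this
  exact ⟨y, hy, hyx⟩

/-- normalized Haar measure -/
theorem exists_haar [MeasurableSpace K] [BorelSpace K] : ∃ μ : Measure K, IsProbabilityMeasure μ ∧
    μ.IsMulLeftInvariant ∧ μ.IsOpenPosMeasure := by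
  refine ⟨Measure.haarMeasure ⊤, ⟨?_⟩, inferInstance, inferInstance⟩
  have := Measure.haarMeasure_self (K₀ := (⊤ : TopologicalSpace.PositiveCompacts K))
  simpa using this

/-- trajectories are at most covering numbers -/
theorem lower (A : Finset (K →ₜ* Circle)) (ρ : ℝ) (hρ : 1 < ρ) :
    ∃ 𝒰 : Set (Set K), 𝒰.Finite ∧ (∀ U ∈ 𝒰, IsOpen U) ∧ ⋃₀ 𝒰 = univ ∧
      ∀ F : Finset S, ((traj γ F (A : Set (K →ₜ* Circle))).ncard : ℝ) ≤
        (ρ ^ 3) ^ F.card * coverNum (joinCover γ F 𝒰) := by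
  classical
  letI : MeasurableSpace K := borel K
  haveI : BorelSpace K := ⟨rfl⟩
  obtain ⟨μ, hμ1, hμ2, -⟩ := exists_haar (K := K)
  obtain ⟨B, hB, hAB⟩ := exists_folner A ρ hρ
  have hρ0 : 0 < ρ := by linarith
  have hBc : (0 : ℝ) < B.card := by exact_mod_cast hB.card_pos
  let U : Set K := {x | ρ⁻¹ * B.card < ‖∑ b ∈ B, ((b x : Circle) : ℂ)‖}
  have hU : IsOpen U := by
    apply isOpen_lt continuous_const
    apply Continuous.norm
    apply continuous_finsetSum
    intro b _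
    exact char_cont b
  have h1U : (1 : K) ∈ U := by
    show ρ⁻¹ * B.card < ‖∑ b ∈ B, ((b 1 : Circle) : ℂ)‖
    have : ∑ b ∈ B, ((b 1 : Circle) : ℂ) = B.card := by
      simp
    rw [this, Complex.norm_natCast]
    have : ρ⁻¹ < 1 := inv_lt_one_of_one_lt₀ hρ
    nlinarith
  obtain ⟨V, hV, h1V, hVU⟩ := exists_split U hU h1U
  obtain ⟨t, ht⟩ := exists_translates V hV h1V
  refine ⟨(fun y => {x | y⁻¹ * x ∈ V}) '' (t : Set K), t.finite_toSet.image _, ?_, ?_, ?_⟩
  · rintro _ ⟨y, _, rfl⟩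
    exact hV.preimage (continuous_const.mul continuous_id)
  · rw [eq_univ_iff_forall]
    intro x
    obtain ⟨y, hy, hyx⟩ := ht x
    exact ⟨_, ⟨y, hy, rfl⟩, hyx⟩
  · intro F
    have hcov : ⋃₀ ((fun y => {x | y⁻¹ * x ∈ V}) '' (t : Set K)) = univ := by
      rw [eq_univ_iff_forall]
      intro x
      obtain ⟨y, hy, hyx⟩ := ht x
      exact ⟨_, ⟨y, hy, rfl⟩, hyx⟩
    have hfin : ((fun y => {x | y⁻¹ * x ∈ V}) '' (t : Set K)).Finite := t.finite_toSet.image _
    obtain ⟨𝒱, hsub, hf, hn, hc⟩ := coverNum_spec (joinCover_finite γ F hfin)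
      (joinCover_cover γ F hcov)
    rw [← hn]
    have hone : (1 : ℝ) ≤ 𝒱.ncard * μ.real (UF γ F U) := by
      have h1 : (1 : ℝ) = μ.real (⋃ P ∈ hf.toFinset, P) := by
        have : (⋃ P ∈ hf.toFinset, P) = (univ : Set K) := by
          rw [← hc, sUnion_eq_biUnion]
          simp
        rw [this, probReal_univ]
      rw [h1]
      refine (measureReal_biUnion_finset_le _ _).trans ?_
      rw [Set.ncard_eq_toFinset_card _ hf, ← nsmul_eq_mul]
      apply Finset.sum_le_card_nsmul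
      intro P hP
      rw [Set.Finite.mem_toFinset] at hP
      obtain ⟨f, hf1, rfl⟩ := hsub hP
      apply meas_le
      intro x hx y hy s
      simp only [mem_iInter, mem_preimage] at hx hy
      have hxs := hx s s.2
      have hys := hy s s.2
      obtain ⟨j, _, hj⟩ := hf1 s s.2
      rw [← hj] at hxs hys
      have := hVU _ hxs _ hys
      rwa [mul_div_mul_left_eq_div] at this
    have h2 := lower_aux γ μ F A B hB ρ hρ hAB
    have h3 : (0 : ℝ) ≤ (traj γ F (A : Set (K →ₜ* Circle))).ncard := by positivity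
    calc ((traj γ F (A : Set (K →ₜ* Circle))).ncard : ℝ)
        = (traj γ F (A : Set (K →ₜ* Circle))).ncard * 1 := (mul_one _).symm
      _ ≤ (traj γ F (A : Set (K →ₜ* Circle))).ncard * (𝒱.ncard * μ.real (UF γ F U)) :=
          mul_le_mul_of_nonneg_left hone h3
      _ = ((traj γ F (A : Set (K →ₜ* Circle))).ncard * μ.real (UF γ F U)) * 𝒱.ncard := by ring
      _ ≤ (ρ ^ 3) ^ F.card * 𝒱.ncard := mul_le_mul_of_nonneg_right h2 (by positivity)

/-- Cauchy-Schwarz over the fibres -/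
theorem cs_fibres {ι D : Type*} [DecidableEq D] (P : Finset ι) (w : ι → ℝ) (z : ι → D) :
    (∑ p ∈ P, w p) ^ 2 ≤
      ((P.image z).card : ℝ) * ∑ p ∈ P, ∑ q ∈ P, if z p = z q then w p * w q else 0 := by
  have h1 : ∑ p ∈ P, w p = ∑ d ∈ P.image z, ∑ p ∈ P with z p = d, w p :=
    (Finset.sum_fiberwise_of_maps_to (fun p hp => Finset.mem_image_of_mem z hp) w).symm
  have h2 : ∑ p ∈ P, ∑ q ∈ P, (if z p = z q then w p * w q else 0) =
      ∑ d ∈ P.image z, (∑ p ∈ P with z p = d, w p) ^ 2 := by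
    rw [← Finset.sum_fiberwise_of_maps_to (fun p hp => Finset.mem_image_of_mem z hp)
      (fun p => ∑ q ∈ P, if z p = z q then w p * w q else 0)]
    refine Finset.sum_congr rfl fun d _ => ?_
    rw [sq, Finset.sum_mul_sum]
    refine Finset.sum_congr rfl fun p hp => ?_
    rw [Finset.sum_filter]
    refine Finset.sum_congr rfl fun q _ => ?_
    rw [(Finset.mem_filter.mp hp).2]
    by_cases h : z q = d
    · rw [if_pos h.symm, if_pos h]
    · rw [if_neg (fun h' => h h'.symm), if_neg h]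
  rw [h1, h2]
  exact sq_sum_le_card_mul_sum_sq

section meas2

variable [MeasurableSpace K] [BorelSpace K] (μ : Measure K) [IsProbabilityMeasure μ]
  [μ.IsMulLeftInvariant]

theorem upper_aux [DecidableEq S] [DecidableEq (K →ₜ* Circle)] (F : Finset S) (W V : Set K)
    (hV : IsOpen V) (hVW : ∀ v ∈ V, ∀ w ∈ V, v / w ∈ W) (t : Finset K)
    (ht : ∀ x, ∃ y ∈ t, y⁻¹ * x ∈ V) (θ : ℝ) (hθ : 0 ≤ θ) {ι : Type*} (P : Finset ι)
    (w : ι → ℝ) (z : ι → K →ₜ* Circle) (hw0 : ∀ p, 0 ≤ w p) (hw1 : ∑ p ∈ P, w p = 1)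
    (hpeak : ∀ x, x ∉ V → ‖∑ p ∈ P, (w p : ℂ) * ((z p x : Circle) : ℂ)‖ ^ 2 ≤ θ) :
    1 ≤ ((traj γ F ((P.image z : Finset (K →ₜ* Circle)) : Set (K →ₜ* Circle))).ncard : ℝ) *
      ((1 + t.card * θ) ^ F.card * μ.real (UF γ F W)) := by
  classical
  let PF : Finset (F → ι) := Fintype.piFinset fun _ : F => P
  let wF : (F → ι) → ℝ := fun p => ∏ s : F, w (p s)
  have hsum : ∑ p ∈ PF, wF p = 1 := by
    have := (Finset.prod_univ_sum (fun _ : F => P) (fun _ b => w b)).symm
    rw [this, hw1, Finset.prod_const_one]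
  have hcs := cs_fibres PF wF (zF γ F z)
  rw [hsum, one_pow, ← int_sq μ] at hcs
  have himg : ((PF.image (zF γ F z)).card : ℝ) ≤
      ((traj γ F ((P.image z : Finset (K →ₜ* Circle)) : Set (K →ₜ* Circle))).ncard : ℝ) := by
    rw [← Set.ncard_coe_finset]
    have : ((PF.image (zF γ F z) : Finset (K →ₜ* Circle)) : Set (K →ₜ* Circle)) ⊆
        traj γ F ((P.image z : Finset (K →ₜ* Circle)) : Set (K →ₜ* Circle)) := by
      intro ψ hψ
      rw [Finset.mem_coe, Finset.mem_image] at hψ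
      obtain ⟨p, hp, rfl⟩ := hψ
      refine ⟨fun s => z (p s), fun s => ?_, rfl⟩
      rw [Finset.mem_coe]
      exact Finset.mem_image_of_mem z (Fintype.mem_piFinset.mp hp s)
    exact_mod_cast Set.ncard_le_ncard this (traj_finite γ F _)
  -- bound of the integral
  let c : Option K → ℝ := fun j => j.elim 1 fun _ => θ
  let Vj : Option K → Set K := fun j => j.elim V fun y => {x | y⁻¹ * x ∈ V}
  have hc0 : ∀ j, 0 ≤ c j := by
    rintro (_ | _)
    · exact zero_le_one
    · exact hθ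
  have hVj : ∀ j, IsOpen (Vj j) := by
    rintro (_ | y)
    · exact hV
    · exact hV.preimage (continuous_const.mul continuous_id)
  have hVjW : ∀ j, ∀ v ∈ Vj j, ∀ w ∈ Vj j, v / w ∈ W := by
    rintro (_ | y) v hv w hw
    · exact hVW v hv w hw
    · have := hVW _ hv _ hw
      rwa [mul_div_mul_left_eq_div] at this
  let T : Finset (Option K) := Finset.insertNone t
  have hpt : ∀ y : K, ‖∑ p ∈ P, (w p : ℂ) * ((z p y : Circle) : ℂ)‖ ^ 2 ≤
      ∑ j ∈ T, c j * (Vj j).indicator 1 y := by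
    intro y
    have hsplit : ∑ j ∈ T, c j * (Vj j).indicator 1 y =
        V.indicator 1 y + ∑ j ∈ t, θ * ({x | j⁻¹ * x ∈ V} : Set K).indicator 1 y := by
      show ∑ j ∈ Finset.insertNone t, _ = _
      rw [Finset.sum_insertNone]
      simp only [c, Vj, Option.elim, one_mul]
    rw [hsplit]
    have hnn : ∀ j ∈ t, 0 ≤ θ * ({x | j⁻¹ * x ∈ V} : Set K).indicator (1 : K → ℝ) y := by
      intro j _
      apply mul_nonneg hθ
      exact Set.indicator_nonneg (fun _ _ => zero_le_one) _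
    by_cases hy : y ∈ V
    · rw [Set.indicator_of_mem hy, Pi.one_apply]
      have h1 : ‖∑ p ∈ P, (w p : ℂ) * ((z p y : Circle) : ℂ)‖ ≤ 1 := by
        refine (norm_sum_le _ _).trans ?_
        rw [← hw1]
        apply Finset.sum_le_sum
        intro p _
        rw [norm_mul, char_norm, mul_one, Complex.norm_real, Real.norm_eq_abs, abs_of_nonneg (hw0 p)]
      have h2 := Finset.sum_nonneg hnn
      have h3 := norm_nonneg (∑ p ∈ P, (w p : ℂ) * ((z p y : Circle) : ℂ))
      nlinarith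
    · rw [Set.indicator_of_notMem hy, zero_add]
      refine (hpeak y hy).trans ?_
      obtain ⟨j, hj, hjy⟩ := ht y
      refine le_trans (le_of_eq ?_) (Finset.single_le_sum hnn hj)
      have hmem : y ∈ ({x | j⁻¹ * x ∈ V} : Set K) := hjy
      rw [Set.indicator_of_mem hmem, Pi.one_apply, mul_one]
  let Q : (F → Option K) → Set K := fun p => {x | ∀ s : F, γ (s : S) x ∈ Vj (p s)}
  have hQo : ∀ p, IsOpen (Q p) := by
    intro p
    have : Q p = ⋂ s : F, (γ (s : S)) ⁻¹' (Vj (p s)) := by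
      ext x
      simp [Q]
    rw [this]
    exact isOpen_iInter_of_finite fun s => (hVj (p s)).preimage (γ (s : S)).continuous_toFun
  have hQm : ∀ p, μ.real (Q p) ≤ μ.real (UF γ F W) := by
    intro p
    apply meas_le
    intro x hx y hy s
    exact hVjW _ _ (hx s) _ (hy s)
  have hptF : ∀ x : K, ‖∑ p ∈ PF, (wF p : ℂ) * ((zF γ F z p x : Circle) : ℂ)‖ ^ 2 ≤
      ∑ p ∈ Fintype.piFinset (fun _ : F => T), (∏ s : F, c (p s)) * (Q p).indicator 1 x := by
    intro x
    have h1 := expand γ F P w z x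
    have h2 : ∑ p ∈ PF, (wF p : ℂ) * ((zF γ F z p x : Circle) : ℂ) =
        ∏ s : F, ∑ b ∈ P, (w b : ℂ) * ((z b (γ (s : S) x) : Circle) : ℂ) := h1.symm
    rw [h2, norm_prod, ← Finset.prod_pow]
    have h3 : ∏ s : F, ‖∑ b ∈ P, (w b : ℂ) * ((z b (γ (s : S) x) : Circle) : ℂ)‖ ^ 2 ≤
        ∏ s : F, ∑ j ∈ T, c j * (Vj j).indicator 1 (γ (s : S) x) := by
      apply Finset.prod_le_prod
      · intro _ _
        positivity
      · intro s _
        exact hpt _
    refine h3.trans (le_of_eq ?_)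
    rw [Finset.prod_univ_sum]
    refine Finset.sum_congr rfl fun p _ => ?_
    rw [Finset.prod_mul_distrib]
    congr 1
    by_cases hx : x ∈ Q p
    · rw [Set.indicator_of_mem hx, Pi.one_apply]
      apply Finset.prod_eq_one
      intro s _
      rw [Set.indicator_of_mem (hx s), Pi.one_apply]
    · rw [Set.indicator_of_notMem hx]
      have : ∃ s : F, γ (s : S) x ∉ Vj (p s) := by
        by_contra hcon
        push Not at hcon
        exact hx hcon
      obtain ⟨s, hs⟩ := this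
      apply Finset.prod_eq_zero (Finset.mem_univ s)
      rw [Set.indicator_of_notMem hs]
  have hint : ∫ x, ‖∑ p ∈ PF, (wF p : ℂ) * ((zF γ F z p x : Circle) : ℂ)‖ ^ 2 ∂μ ≤
      (1 + t.card * θ) ^ F.card * μ.real (UF γ F W) := by
    have hcont : Continuous fun x : K =>
        ‖∑ p ∈ PF, (wF p : ℂ) * ((zF γ F z p x : Circle) : ℂ)‖ ^ 2 := by
      apply Continuous.pow
      apply Continuous.norm
      apply continuous_finsetSum
      intro p _
      exact continuous_const.mul (char_cont _)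
    have hindi : ∀ p : F → Option K, Integrable ((Q p).indicator (1 : K → ℝ)) μ := by
      intro p
      exact (integrable_const (1 : ℝ)).indicator (hQo p).measurableSet
    have hri : Integrable (fun x => ∑ p ∈ Fintype.piFinset (fun _ : F => T),
        (∏ s : F, c (p s)) * (Q p).indicator 1 x) μ := by
      apply integrable_finsetSum
      intro p _
      exact (hindi p).const_mul _
    refine (integral_mono (integrable_cont μ hcont) hri hptF).trans ?_
    rw [integral_finsetSum _ (fun p _ => (hindi p).const_mul _)]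
    have h4 : ∀ p : F → Option K, ∫ x, (∏ s : F, c (p s)) * (Q p).indicator 1 x ∂μ =
        (∏ s : F, c (p s)) * μ.real (Q p) := by
      intro p
      rw [integral_const_mul, integral_indicator_one (hQo p).measurableSet]
    simp only [h4]
    have h5 : ∑ p ∈ Fintype.piFinset (fun _ : F => T), (∏ s : F, c (p s)) * μ.real (Q p) ≤
        ∑ p ∈ Fintype.piFinset (fun _ : F => T), (∏ s : F, c (p s)) * μ.real (UF γ F W) := by
      apply Finset.sum_le_sum
      intro p _
      apply mul_le_mul_of_nonneg_left (hQm p)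
      exact Finset.prod_nonneg fun s _ => hc0 _
    refine h5.trans (le_of_eq ?_)
    rw [← Finset.sum_mul]
    congr 1
    have h6 := (Finset.prod_univ_sum (fun _ : F => T) (fun _ j => c j)).symm
    rw [h6, Finset.prod_const, Finset.card_univ, Fintype.card_coe]
    congr 1
    show ∑ j ∈ Finset.insertNone t, c j = _
    rw [Finset.sum_insertNone]
    simp only [c, Option.elim, Finset.sum_const, nsmul_eq_mul]
  have hR0 : 0 ≤ (1 + t.card * θ) ^ F.card * μ.real (UF γ F W) := by positivity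
  refine hcs.trans ?_
  have hI0 : 0 ≤ ∫ x, ‖∑ p ∈ PF, (wF p : ℂ) * ((zF γ F z p x : Circle) : ℂ)‖ ^ 2 ∂μ :=
    integral_nonneg fun x => by positivity
  exact mul_le_mul himg hint hI0 (by positivity)

/-- maximal separated sets -/
theorem exists_sep [μ.IsOpenPosMeasure] (O : Set K) (hO : IsOpen O) (h1 : (1 : K) ∈ O) :
    ∃ E : Finset K, (E.card : ℝ) * μ.real O ≤ 1 ∧
      ∀ x, ∃ e ∈ E, ∃ w ∈ O, ∃ w' ∈ O, x * w = e * w' := by
  classical
  have hb : 0 < μ.real O := by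
    rw [Measure.real, ENNReal.toReal_pos_iff]
    exact ⟨hO.measure_pos μ ⟨1, h1⟩, measure_lt_top μ O⟩
  let tr : K → Set K := fun e => {x | e⁻¹ * x ∈ O}
  have htr : ∀ e, μ.real (tr e) = μ.real O := by
    intro e
    have : μ ((fun x => e⁻¹ * x) ⁻¹' O) = μ O := measure_preimage_mul μ _ _
    show (μ ((fun x => e⁻¹ * x) ⁻¹' O)).toReal = _
    rw [this]
    rfl
  have hbound : ∀ E : Finset K, (E : Set K).PairwiseDisjoint tr → (E.card : ℝ) * μ.real O ≤ 1 := by
    intro E hE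
    have h2 : μ.real (⋃ e ∈ E, tr e) = ∑ e ∈ E, μ.real (tr e) := by
      apply measureReal_biUnion_finset hE
      intro e _
      exact (hO.preimage (continuous_const.mul continuous_id)).measurableSet
    simp only [htr, Finset.sum_const, nsmul_eq_mul] at h2
    rw [← h2]
    exact measureReal_le_one
  let N : Set ℕ := {n | ∃ E : Finset K, E.card = n ∧ (E : Set K).PairwiseDisjoint tr}
  have hN1 : N.Nonempty := ⟨0, ∅, rfl, by simp⟩
  have hN2 : BddAbove N := by
    refine ⟨Nat.floor (1 / μ.real O), ?_⟩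
    rintro n ⟨E, rfl, hE⟩
    apply Nat.le_floor
    rw [le_div_iff₀ hb]
    exact hbound E hE
  obtain ⟨E, hEc, hE⟩ := Nat.sSup_mem hN1 hN2
  refine ⟨E, hbound E hE, fun x => ?_⟩
  by_contra hcon
  push Not at hcon
  have hdis : ∀ e ∈ E, Disjoint (tr x) (tr e) := by
    intro e he
    rw [Set.disjoint_left]
    intro y hy1 hy2
    apply hcon e he _ hy1 _ hy2
    rw [mul_inv_cancel_left, mul_inv_cancel_left]
  have hx : x ∉ E := by
    intro hx
    have h3 := hdis x hx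
    rw [Set.disjoint_left] at h3
    have h4 : x ∈ tr x := by
      show x⁻¹ * x ∈ O
      rwa [inv_mul_cancel]
    exact h3 h4 h4
  have hins : ((insert x E : Finset K) : Set K).PairwiseDisjoint tr := by
    rw [Finset.coe_insert]
    exact hE.insert fun e he _ => hdis e he
  have h5 : (insert x E : Finset K).card ≤ sSup N := le_csSup hN2 ⟨_, rfl, hins⟩
  rw [Finset.card_insert_of_notMem hx, hEc] at h5
  omega

end meas2

/-- Lebesgue numbers -/
theorem lebesgue (𝒰 : Set (Set K)) (hopen : ∀ U ∈ 𝒰, IsOpen U) (hcov : ⋃₀ 𝒰 = univ) :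
    ∃ V : Set K, IsOpen V ∧ (1 : K) ∈ V ∧ ∀ x : K, ∃ U ∈ 𝒰, ∀ v ∈ V, x * v ∈ U := by
  classical
  rw [eq_univ_iff_forall] at hcov
  have h1 : ∀ x : K, ∃ U ∈ 𝒰, x ∈ U := hcov
  choose f hf hfx using h1
  have h2 : ∀ x : K, ∃ N : Set K, IsOpen N ∧ (1 : K) ∈ N ∧ ∀ v ∈ N, ∀ w ∈ N, x * (v * w) ∈ f x := by
    intro x
    have h3 : {y | x * y ∈ f x} ∈ 𝓝 (1 : K) := by
      apply IsOpen.mem_nhds
      · exact (hopen _ (hf x)).preimage (continuous_const.mul continuous_id)
      · show x * 1 ∈ f x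
        rw [mul_one]
        exact hfx x
    obtain ⟨N, hN, h1N, hNN⟩ := exists_open_nhds_one_mul_subset h3
    exact ⟨N, hN, h1N, fun v hv w hw => hNN (Set.mul_mem_mul hv hw)⟩
  choose N hNo hN1 hN using h2
  obtain ⟨t, -, ht⟩ := (isCompact_univ (X := K)).elim_nhds_subcover
    (fun y => {x | y⁻¹ * x ∈ N y}) (by
      intro y _
      apply IsOpen.mem_nhds
      · exact (hNo y).preimage (continuous_const.mul continuous_id)
      · show y⁻¹ * y ∈ N y
        rw [inv_mul_cancel]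
        exact hN1 y)
  refine ⟨⋂ y ∈ t, N y, ?_, ?_, ?_⟩
  · exact isOpen_biInter_finset fun y _ => hNo y
  · simp only [mem_iInter]
    exact fun y _ => hN1 y
  · intro x
    have h3 := ht (mem_univ x)
    rw [mem_iUnion₂] at h3
    obtain ⟨y, hy, hyx⟩ := h3
    refine ⟨f y, hf y, fun v hv => ?_⟩
    simp only [mem_iInter] at hv
    have h4 := hN y _ hyx v (hv y hy)
    rwa [← mul_assoc, mul_inv_cancel_left] at h4

/-- covering numbers are at most trajectories -/
theorem upper (𝒰 : Set (Set K)) (hopen : ∀ U ∈ 𝒰, IsOpen U) (hcov : ⋃₀ 𝒰 = univ) (ρ : ℝ)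
    (hρ : 1 < ρ) : ∃ A : Finset (K →ₜ* Circle), A.Nonempty ∧
      ∀ F : Finset S, (coverNum (joinCover γ F 𝒰) : ℝ) ≤
        ρ ^ F.card * (traj γ F (A : Set (K →ₜ* Circle))).ncard := by
  classical
  letI : MeasurableSpace K := borel K
  haveI : BorelSpace K := ⟨rfl⟩
  obtain ⟨μ, hμ1, hμ2, hμ3⟩ := exists_haar (K := K)
  obtain ⟨V0, hV0, h1V0, hL⟩ := lebesgue 𝒰 hopen hcov
  choose u hu huV using hL
  obtain ⟨W, hW, h1W, hWV⟩ := exists_split V0 hV0 h1V0
  obtain ⟨V, hV, h1V, hVW⟩ := exists_split W hW h1W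
  obtain ⟨t, ht⟩ := exists_translates V hV h1V
  have htc : (0 : ℝ) < t.card := by
    obtain ⟨y, hy, _⟩ := ht 1
    exact_mod_cast Finset.card_pos.mpr ⟨y, hy⟩
  set θ : ℝ := (ρ - 1) / t.card with hθ
  have hθ0 : 0 < θ := div_pos (by linarith) htc
  obtain ⟨ι, P, w, z, hP, hw0, hw1, hpeak⟩ := exists_peak V hV h1V θ hθ0
  refine ⟨P.image z, hP.image z, fun F => ?_⟩
  have h1 := upper_aux γ μ F W V hV hVW t ht θ hθ0.le P w z hw0 hw1 hpeak
  have h2 : 1 + t.card * θ = ρ := by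
    rw [hθ]
    field_simp
    ring
  rw [h2] at h1
  obtain ⟨E, hE1, hE2⟩ := exists_sep μ (UF γ F W) (UF_open γ F hW) (one_mem_UF γ F h1W)
  -- the subcover
  let Pe : K → Set K := fun e => ⋂ s ∈ F, γ s ⁻¹' (u (γ s e))
  have hPe : ∀ e, Pe e ∈ joinCover γ F 𝒰 := fun e => ⟨fun s => u (γ s e), fun s _ => hu _, rfl⟩
  have hsub : Pe '' (E : Set K) ⊆ joinCover γ F 𝒰 := by
    rintro _ ⟨e, _, rfl⟩
    exact hPe e
  have hcovE : ⋃₀ (Pe '' (E : Set K)) = univ := by
    rw [eq_univ_iff_forall]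
    intro x
    obtain ⟨e, he, v, hv, v', hv', hx⟩ := hE2 x
    refine ⟨Pe e, ⟨e, he, rfl⟩, ?_⟩
    show x ∈ ⋂ s ∈ F, γ s ⁻¹' (u (γ s e))
    simp only [mem_iInter, mem_preimage]
    intro s hs
    have h3 : x = e * (v' / v) := by
      rw [mul_div_assoc', ← hx, mul_div_cancel_right]
    rw [h3, map_mul, map_div]
    exact huV _ _ (hWV _ (hv' ⟨s, hs⟩) _ (hv ⟨s, hs⟩))
  have hle : (coverNum (joinCover γ F 𝒰) : ℝ) ≤ E.card := by
    have h4 := coverNum_le hsub (E.finite_toSet.image _) hcovE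
    have h5 : (Pe '' (E : Set K)).ncard ≤ E.card := by
      refine (Set.ncard_image_le E.finite_toSet).trans ?_
      rw [Set.ncard_coe_finset]
    exact_mod_cast h4.trans h5
  have hb : 0 < μ.real (UF γ F W) := by
    rw [Measure.real, ENNReal.toReal_pos_iff]
    exact ⟨(UF_open γ F hW).measure_pos μ ⟨1, one_mem_UF γ F h1W⟩, measure_lt_top μ _⟩
  have h6 : (coverNum (joinCover γ F 𝒰) : ℝ) * μ.real (UF γ F W) ≤
      (ρ ^ F.card * (traj γ F ((P.image z : Finset (K →ₜ* Circle)) :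
        Set (K →ₜ* Circle))).ncard) * μ.real (UF γ F W) := by
    calc (coverNum (joinCover γ F 𝒰) : ℝ) * μ.real (UF γ F W) ≤ E.card * μ.real (UF γ F W) :=
          mul_le_mul_of_nonneg_right hle hb.le
      _ ≤ 1 := hE1
      _ ≤ _ := h1
      _ = _ := by ring
  exact le_of_mul_le_mul_right h6 hb

end Pool.Agent.Q184.Bridge
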